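import Pool.Agent.T9h45.HD.One

/-!
# The statements for simple graphs of Mathlib
-/

set_option autoImplicit false

namespace Pool.T9h45.HD

open Finset Pool.T9h45.HY Pool.Q6.CI

variable {V : Type}

theorem dg_induce [Fintype V] (G : SimpleGraph V) (S : Set V) [Fintype S] (v : S) :
    dg (G.induce S) v ≤ dg G v := by
  classical
  unfold dg
  refine card_le_card_of_injOn Subtype.val ?_ fun a _ b _ h => Subtype.ext h
  intro w hw
  rw [mem_coe, mem_filter] at hw ⊢
  exact ⟨mem_univ _, hw.2⟩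

/-- at most `2 p` vertices and large degree -/
theorem dense' [Fintype V] {G : SimpleGraph V} {D p : ℕ} (hp : 1 ≤ p) (hD : ∀ v, dg G v ≤ D)
    (hn : Fintype.card V ≤ 2 * p) (h : 4 * Fintype.card V ≤ 4 * D + 4 + p) :
    Lb G p (D + 2 * p) := by
  obtain ⟨χ, C, hC, hχ, ho⟩ := exists_opt (G := G)
  by_cases h2 : Fintype.card V + χ ≤ 2 * D + 1
  · exact small_chi C hC hχ hp hD hn h2
  · exact large_chi C hC hχ ho hp hD hn (by omega)

/-- the same for the components -/
theorem dense_comp [Fintype V] (G : SimpleGraph V) {D p : ℕ} (hp : 1 ≤ p)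
    (hD : ∀ v, dg G v ≤ D)
    (h : ∀ c : G.ConnectedComponent, c.supp.ncard ≤ 2 * p ∧ 4 * c.supp.ncard ≤ 4 * D + 4 + p) :
    Lb G p (D + 2 * p) := by
  classical
  refine glue (fun v => G.connectedComponentMk v) (fun u v huv => ?_) fun c => ?_
  · exact SimpleGraph.ConnectedComponent.sound huv.reachable
  · have h1 : Fintype.card {v | G.connectedComponentMk v = c} = c.supp.ncard := by
      rw [← Nat.card_eq_fintype_card, Nat.card_coe_set_eq]
      rfl
    refine dense' hp (fun v => (dg_induce G _ v).trans (hD v)) ?_ ?_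
    · rw [h1]
      exact (h c).1
    · rw [h1]
      exact (h c).2

/-- colourings with the chromatic number of colours -/
theorem opt_of_chi (G : SimpleGraph V) {χ : ℕ} (h : G.chromaticNumber = χ) :
    ∃ C : V → ℕ, (∀ u v, G.Adj u v → C u ≠ C v) ∧ (∀ v, C v < χ) ∧ Opt G χ := by
  have h1 : G.Colorable χ := SimpleGraph.chromaticNumber_le_iff_colorable.1 h.le
  obtain ⟨c⟩ := h1
  refine ⟨fun v => (c v : ℕ), fun u v huv h => c.valid huv (Fin.ext h), fun v => (c v).isLt, ?_⟩
  intro C k hC hk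
  have h2 : G.Colorable k := ⟨SimpleGraph.Coloring.mk (fun v => (⟨C v, hk v⟩ : Fin k))
    fun {u v} huv h => hC u v huv (Fin.ext_iff.1 h)⟩
  have h3 := h2.chromaticNumber_le
  rw [h] at h3
  exact_mod_cast h3

end Pool.T9h45.HD
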