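import Pool.Agent.T9h45.HD.Sav
import Pool.Agent.T9h45.HY.PLarge

/-!
# Labellings from a division of the vertices into low and high ones
-/

set_option autoImplicit false

namespace Pool.T9h45.HD

open Finset Pool.T9h45.HY

variable {V : Type} {G : SimpleGraph V}

/-- the label of the edge `u v` -/
def eL (S : V → Prop) [DecidablePred S] (gL gH : V → V → ℕ) (c : V → V → ℕ) (D p t : ℕ)
    (u v : V) : ℕ :=
  if S u then (if S v then D + p - t + gL u v else p + c u v)
  else (if S v then p + c v u else gH u v)

theorem mod_ne {M a b c : ℕ} (hb : b < M) (hc : c < M) (hne : b ≠ c) : (a + b) % M ≠ (a + c) % M := by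
  intro h
  have h1 : b ≡ c [MOD M] := Nat.ModEq.add_left_cancel' a h
  exact hne (Nat.ModEq.eq_of_lt_of_lt h1 hb hc)

theorem assemble (S : V → Prop) [DecidablePred S] (f : V → ℕ) (gL gH c : V → V → ℕ)
    (D p t t' : ℕ) (hp : 1 ≤ p)
    (h1 : ∀ u v, G.Adj u v → S u → S v → gL u v < p + t ∧ gL u v = gL v u)
    (h1' : ∀ u v w, G.Adj u v → G.Adj u w → S u → S v → S w → v ≠ w → gL u v ≠ gL u w)
    (h2 : ∀ u v, G.Adj u v → ¬ S u → ¬ S v → gH u v < p + t' ∧ gH u v = gH v u)
    (h2' : ∀ u v w, G.Adj u v → G.Adj u w → ¬ S u → ¬ S v → ¬ S w → v ≠ w → gH u v ≠ gH u w)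
    (h4 : ∀ u v, G.Adj u v → (S u ↔ S v) → f u ≠ f v)
    (h5 : ∀ u v, G.Adj u v → S u → ¬ S v → f u + t' ≤ c u v ∧ c u v + f v + t < D)
    (h6 : ∀ u v w, G.Adj u v → G.Adj u w → S u → ¬ S v → ¬ S w → v ≠ w → c u v ≠ c u w)
    (h7 : ∀ u v w, G.Adj u v → G.Adj u w → ¬ S u → S v → S w → v ≠ w → c v u ≠ c w u)
    (h8 : ∀ u, S u → f u + t ≤ D) (h9 : ∀ u, ¬ S u → f u + t' ≤ D) : Lb G p (D + 2 * p) := by
  refine ⟨fun v => if S v then f v else D + 2 * p - 1 - f v, eL S gL gH c D p t, ?_, ?_, ?_, ?_,
    ?_, ?_⟩
  · intro v
    by_cases hv : S v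
    · have := h8 v hv
      simp only [if_pos hv]
      omega
    · simp only [if_neg hv]
      omega
  · intro v w hvw
    unfold eL
    by_cases hv : S v <;> by_cases hw : S w
    · have := h8 v hv
      have q1 := (h1 v w hvw hv hw).1
      simp only [if_pos hv, if_pos hw]
      omega
    · have := h5 v w hvw hv hw
      simp only [if_pos hv, if_neg hw]
      omega
    · have := h5 w v hvw.symm hw hv
      simp only [if_neg hv, if_pos hw]
      omega
    · have := h9 v hv
      have q1 := (h2 v w hvw hv hw).1
      simp only [if_neg hv, if_neg hw]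
      omega
  · intro v w hvw
    unfold eL
    by_cases hv : S v <;> by_cases hw : S w
    · simp only [if_pos hv, if_pos hw]
      rw [(h1 v w hvw hv hw).2]
    · simp only [if_pos hv, if_neg hw]
    · simp only [if_neg hv, if_pos hw]
    · simp only [if_neg hv, if_neg hw]
      exact (h2 v w hvw hv hw).2
  · intro v w hvw
    by_cases hv : S v <;> by_cases hw : S w
    · have := h4 v w hvw (iff_of_true hv hw)
      simp only [if_pos hv, if_pos hw]
      exact this
    · have := h5 v w hvw hv hw
      simp only [if_pos hv, if_neg hw]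
      omega
    · have := h5 w v hvw.symm hw hv
      simp only [if_neg hv, if_pos hw]
      omega
    · have q1 := h4 v w hvw (iff_of_false hv hw)
      have q2 := h9 v hv
      have q3 := h9 w hw
      simp only [if_neg hv, if_neg hw]
      omega
  · intro u v w huv huw hne
    unfold eL
    by_cases hu : S u <;> by_cases hv : S v <;> by_cases hw : S w
    · simp only [if_pos hu, if_pos hv, if_pos hw]
      have := h1' u v w huv huw hu hv hw hne
      omega
    · simp only [if_pos hu, if_pos hv, if_neg hw]
      have := h5 u w huw hu hw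
      have := h8 u hu
      omega
    · simp only [if_pos hu, if_neg hv, if_pos hw]
      have := h5 u v huv hu hv
      have := h8 u hu
      omega
    · simp only [if_pos hu, if_neg hv, if_neg hw]
      have := h6 u v w huv huw hu hv hw hne
      omega
    · simp only [if_neg hu, if_pos hv, if_pos hw]
      have := h7 u v w huv huw hu hv hw hne
      omega
    · simp only [if_neg hu, if_pos hv, if_neg hw]
      have := h5 v u huv.symm hv hu
      have q2 := (h2 u w huw hu hw).1
      omega
    · simp only [if_neg hu, if_neg hv, if_pos hw]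
      have := h5 w u huw.symm hw hu
      have q2 := (h2 u v huv hu hv).1
      omega
    · simp only [if_neg hu, if_neg hv, if_neg hw]
      exact h2' u v w huv huw hu hv hw hne
  · intro v w hvw
    unfold eL
    by_cases hv : S v <;> by_cases hw : S w
    · have := h8 v hv
      simp only [if_pos hv, if_pos hw]
      refine far ?_
      omega
    · have := h5 v w hvw hv hw
      simp only [if_pos hv, if_neg hw]
      refine far ?_
      omega
    · have := h5 w v hvw.symm hw hv
      simp only [if_neg hv, if_pos hw]
      rw [abs_sub_comm]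
      refine far ?_
      omega
    · have := h9 v hv
      have q1 := (h2 v w hvw hv hw).1
      simp only [if_neg hv, if_neg hw]
      rw [abs_sub_comm]
      refine far ?_
      omega

end Pool.T9h45.HD
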