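import Pool.Agent.T9h45.HD.Good
import Pool.Agent.TH559.LE.Bip

/-!
# Labellings of graphs with large chromatic number
-/

set_option autoImplicit false

namespace Pool.T9h45.HD

open Finset Pool.T9h45.HY Pool.Q6.CI

variable {V : Type} {G : SimpleGraph V}

/-- `χ` is the smallest number of colours -/
def Opt (G : SimpleGraph V) (χ : ℕ) : Prop :=
  ∀ (C : V → ℕ) (k : ℕ), (∀ u v, G.Adj u v → C u ≠ C v) → (∀ v, C v < k) → χ ≤ k

/-- a vertex which is alone in its class has a neighbour in every other class -/
theorem nbr (C : V → ℕ) (hC : ∀ u v, G.Adj u v → C u ≠ C v) {χ : ℕ} (hχ : ∀ v, C v < χ)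
    (ho : Opt G χ) {x : V} (hx : ∀ v, C v = C x → v = x) {c : ℕ} (hcx : c ≠ C x) (hc : c < χ) :
    ∃ z, G.Adj x z ∧ C z = c := by
  classical
  by_contra hcon
  push Not at hcon
  have h1 : ∀ v, (if v = x then c else C v) ≠ C x := by
    intro v
    by_cases hv : v = x
    · rw [if_pos hv]
      exact hcx
    · rw [if_neg hv]
      exact fun h => hv (hx v h)
  have h2 : ∀ v, (if v = x then c else C v) < χ := by
    intro v
    by_cases hv : v = x
    · rw [if_pos hv]
      exact hc
    · rw [if_neg hv]
      exact hχ v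
  have h3 : ∀ u v, G.Adj u v → (if u = x then c else C u) ≠ (if v = x then c else C v) := by
    intro u v huv
    by_cases hu : u = x <;> by_cases hv : v = x
    · exact absurd (hu.trans hv.symm) huv.ne
    · rw [if_pos hu, if_neg hv]
      exact (hcon v (hu ▸ huv)).symm
    · rw [if_neg hu, if_pos hv]
      exact hcon u (hv ▸ huv.symm)
    · rw [if_neg hu, if_neg hv]
      exact hC u v huv
  have h4 := hχ x
  have h5 := ho (fun v => if (if v = x then c else C v) = χ - 1 then C x else
    (if v = x then c else C v)) (χ - 1) ?_ ?_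
  · omega
  · intro u v huv
    have g1 := h1 u
    have g2 := h1 v
    have g3 := h3 u v huv
    show (if (if u = x then c else C u) = χ - 1 then C x else (if u = x then c else C u)) ≠
      (if (if v = x then c else C v) = χ - 1 then C x else (if v = x then c else C v))
    generalize (if u = x then c else C u) = a at g1 g3 ⊢
    generalize (if v = x then c else C v) = b at g2 g3 ⊢
    split_ifs <;> omega
  · intro v
    have g1 := h1 v
    have g2 := h2 v
    show (if (if v = x then c else C v) = χ - 1 then C x else (if v = x then c else C v)) < χ - 1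
    generalize (if v = x then c else C v) = a at g1 g2 ⊢
    split_ifs <;> omega

/-- the graph outside `L` -/
def out (G : SimpleGraph V) (L : Finset V) : SimpleGraph V where
  Adj u v := G.Adj u v ∧ u ∉ L ∧ v ∉ L
  symm := ⟨fun _ _ h => ⟨h.1.symm, h.2.2, h.2.1⟩⟩
  loopless := ⟨fun _ h => G.ne_of_adj h.1 rfl⟩

/-- a clique `L` and a colouring `g` of the rest, the classes `< q` being seen by all the vertices
of the clique and the others having at most one vertex -/
theorem clique_core [Fintype V] [DecidableEq V] {D p b q : ℕ} (hp : 1 ≤ p)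
    (hD : ∀ v, dg G v ≤ D) (L : Finset V) (hL : ∀ x ∈ L, ∀ y ∈ L, y ≠ x → G.Adj x y)
    (h1 : #L ≤ p) (h2 : ∀ v, v ∉ L → dg (out G L) v + 1 ≤ p) (g : V → ℕ)
    (hg : ∀ u v, G.Adj u v → u ∉ L → v ∉ L → g u ≠ g v) (hgb : ∀ v, v ∉ L → g v < b)
    (hb : b + #L ≤ D + 1) (hq : ∀ x ∈ L, ∀ c < q, ∃ z, z ∉ L ∧ G.Adj x z ∧ g z = c)
    (hq' : ∀ u v, u ∉ L → v ∉ L → q ≤ g u → g u = g v → u = v) : Lb G p (D + 2 * p) := by
  classical
  obtain ⟨pos, a1, a2⟩ := positions L
  -- a linear order of the vertices
  obtain ⟨idx, i1, i2⟩ := positions (univ : Finset V)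
  have i1' : ∀ v, idx v < Fintype.card V := fun v => by
    rw [← card_univ]
    exact i1 v (mem_univ v)
  set n := Fintype.card V with hn
  set r : V → ℕ := fun v => g v * n + idx v with hr
  have hrinj : ∀ u v, r u = r v → u = v := by
    intro u v h
    have q1 := i1' u
    have q2 := i1' v
    have h3 : idx u = idx v := by
      have h4 : (g u * n + idx u) % n = (g v * n + idx v) % n := congrArg (· % n) h
      rwa [Nat.mul_add_mod', Nat.mul_add_mod', Nat.mod_eq_of_lt q1, Nat.mod_eq_of_lt q2] at h4
    exact i2 u (mem_univ _) v (mem_univ _) h3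
  have hrC : ∀ u v, g u < g v → r u < r v := by
    intro u v h
    have q1 := i1' u
    have q2 : (g u + 1) * n ≤ g v * n := Nat.mul_le_mul_right n h
    rw [Nat.add_mul, Nat.one_mul] at q2
    show g u * n + idx u < g v * n + idx v
    omega
  -- a linear order of the clique
  set s : V → ℕ := fun v => if v ∈ L then pos v else #L + idx v with hs
  have hsinj : ∀ u v, s u = s v → u = v := by
    intro u v h
    by_cases hu : u ∈ L <;> by_cases hv : v ∈ L
    · simp only [hs, if_pos hu, if_pos hv] at h
      exact a2 u hu v hv h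
    · simp only [hs, if_pos hu, if_neg hv] at h
      have := a1 u hu
      omega
    · simp only [hs, if_neg hu, if_pos hv] at h
      have := a1 v hv
      omega
    · simp only [hs, if_neg hu, if_neg hv] at h
      exact i2 u (mem_univ _) v (mem_univ _) (by omega)
  have hslt : ∀ v, s v < #L + n := by
    intro v
    by_cases hv : v ∈ L
    · have := a1 v hv
      simp only [hs, if_pos hv]
      omega
    · have := i1' v
      simp only [hs, if_neg hv]
      omega
  have hsL : ∀ v ∈ L, s v = pos v := fun v hv => by simp only [hs, if_pos hv]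
  set F : Finset (V × V) := univ.filter fun e => e.1 ∈ L ∧ e.2 ∉ L ∧ G.Adj e.1 e.2 with hF
  -- the neighbours outside `L`
  have hN : ∀ x ∈ L, #(univ.filter fun v => v ∉ L ∧ G.Adj x v) + #L ≤ D + 1 := by
    intro x hx
    have h3 : (univ.filter fun v => v ∉ L ∧ G.Adj x v) ∪ L.erase x ⊆
        univ.filter fun v => G.Adj x v := by
      intro v hv
      rw [mem_union, mem_filter, mem_erase] at hv
      rw [mem_filter]
      rcases hv with hv | hv
      · exact ⟨mem_univ _, hv.2.2⟩
      · exact ⟨mem_univ _, hL x hx v hv.2 hv.1⟩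
    have h4 := card_le_card h3
    rw [card_union_of_disjoint (by
      rw [disjoint_left]
      intro v hv hv'
      exact (mem_filter.1 hv).2.1 (mem_erase.1 hv').2), card_erase_of_mem hx] at h4
    have h5 := hD x
    unfold dg at h5
    have h6 : 0 < #L := card_pos.2 ⟨x, hx⟩
    have h7 : #(univ.filter fun v => G.Adj x v) ≤ D := by
      convert h5
    omega
  have hA : ∀ x ∈ L, ∀ y, y ∉ L → G.Adj x y →
      #(univ.filter fun v => (v ∉ L ∧ G.Adj x v) ∧ r y < r v) + 1 + g y + #L ≤ D + 1 := by
    intro x hx y hy hxy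
    by_cases hyq : g y < q
    · have hz : ∀ c, ∃ z, c < q → (z ∉ L ∧ G.Adj x z ∧ g z = c) := by
        intro c
        by_cases hc : c < q
        · obtain ⟨z, hz⟩ := hq x hx c hc
          exact ⟨z, fun _ => hz⟩
        · exact ⟨x, fun h => absurd h hc⟩
      choose z hz using hz
      have e1 : #((range (g y)).image z) = g y := by
        rw [card_image_of_injOn, card_range]
        intro c hc c' hc' h
        rw [mem_coe, mem_range] at hc hc'
        rw [← (hz c (hc.trans hyq)).2.2, ← (hz c' (hc'.trans hyq)).2.2, h]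
      have hd1 : Disjoint (univ.filter fun v => (v ∉ L ∧ G.Adj x v) ∧ r y < r v) {y} := by
        rw [disjoint_singleton_right, mem_filter]
        exact fun h => lt_irrefl _ h.2.2
      have hd2 : Disjoint ((univ.filter fun v => (v ∉ L ∧ G.Adj x v) ∧ r y < r v) ∪ {y})
          ((range (g y)).image z) := by
        rw [disjoint_left]
        intro v hv hv'
        obtain ⟨c, hc, rfl⟩ := mem_image.1 hv'
        rw [mem_range] at hc
        have h3 := (hz c (hc.trans hyq)).2.2
        rw [mem_union, mem_filter, mem_singleton] at hv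
        rcases hv with hv | hv
        · have h5 := hrC (z c) y (by rw [h3]; exact hc)
          have := hv.2.2
          omega
        · rw [hv] at h3
          omega
      have h3 : ((univ.filter fun v => (v ∉ L ∧ G.Adj x v) ∧ r y < r v) ∪ {y}) ∪
          ((range (g y)).image z) ⊆ univ.filter fun v => v ∉ L ∧ G.Adj x v := by
        intro v hv
        rw [mem_union, mem_union, mem_filter, mem_singleton] at hv
        rw [mem_filter]
        rcases hv with (hv | hv) | hv
        · exact ⟨mem_univ _, hv.2.1⟩
        · rw [hv]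
          exact ⟨mem_univ _, hy, hxy⟩
        · obtain ⟨c, hc, rfl⟩ := mem_image.1 hv
          rw [mem_range] at hc
          have h4 := hz c (hc.trans hyq)
          exact ⟨mem_univ _, h4.1, h4.2.1⟩
      have h4 := card_le_card h3
      rw [card_union_of_disjoint hd2, card_union_of_disjoint hd1, card_singleton, e1] at h4
      have h5 := hN x hx
      omega
    · have h3 : #(univ.filter fun v => (v ∉ L ∧ G.Adj x v) ∧ r y < r v) ≤
          #(Ico (g y + 1) b) := by
        refine card_le_card_of_injOn g ?_ ?_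
        · intro v hv
          rw [mem_coe, mem_filter] at hv
          rw [mem_coe, mem_Ico]
          refine ⟨?_, hgb v hv.2.1.1⟩
          rcases lt_trichotomy (g v) (g y) with h | h | h
          · have := hrC v y h
            have := hv.2.2
            omega
          · have h4 := hq' y v hy hv.2.1.1 (by omega) h.symm
            rw [h4] at hv
            exact absurd hv.2.2 (lt_irrefl _)
          · exact h
        · intro u hu v hv h
          rw [mem_coe, mem_filter] at hu hv
          rcases Nat.lt_or_ge (g u) q with h4 | h4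
          · have h5 := hrC u y (by omega)
            have := hu.2.2
            omega
          · exact hq' u v hu.2.1.1 hv.2.1.1 h4 h
      rw [Nat.card_Ico] at h3
      have h4 := hgb y hy
      omega
  have hB : ∀ x ∈ L, #(L.filter fun w => s x < s w) + 1 + s x ≤ #L := by
    intro x hx
    have h3 : #(L.filter fun w => s x < s w) ≤ #(Ico (s x + 1) #L) := by
      refine card_le_card_of_injOn s ?_ fun u _ v _ h => hsinj u v h
      intro v hv
      rw [mem_coe, mem_filter] at hv
      rw [mem_coe, mem_Ico]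
      have h4 := a1 v hv.1
      rw [← hsL v hv.1] at h4
      exact ⟨hv.2, h4⟩
    rw [Nat.card_Ico] at h3
    have h4 := a1 x hx
    rw [← hsL x hx] at h4
    omega
  obtain ⟨φ, hφ⟩ := Pool.Agent.TH559.LE.galvin (C := ℕ) (fun e : V × V => e.1)
    (fun e => e.2) (fun e => r e.2) (fun e => #L + n - s e.1)
    (fun e f h h' => Prod.ext h (hrinj _ _ h'))
    (fun e f h h' => Prod.ext (hsinj _ _ (by
      have q1 := hslt e.1
      have q2 := hslt f.1
      have h'' : #L + n - s e.1 = #L + n - s f.1 := h'
      omega)) h) #F F (fun e => Ico (s e.1) (D - g e.2)) rfl (by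
      rintro ⟨x, y⟩ he
      rw [hF, mem_filter] at he
      obtain ⟨-, hx, hy, hxy⟩ := he
      have c1 : #(F.filter fun f => f.1 = x ∧ r y < r f.2) ≤
          #(univ.filter fun v => (v ∉ L ∧ G.Adj x v) ∧ r y < r v) := by
        refine card_le_card_of_injOn (fun f => f.2) ?_ ?_
        · intro f hf
          rw [mem_coe, hF, mem_filter, mem_filter] at hf
          rw [mem_coe, mem_filter]
          obtain ⟨⟨-, q1, q2, q3⟩, q4, q5⟩ := hf
          exact ⟨mem_univ _, ⟨q2, q4 ▸ q3⟩, q5⟩
        · intro f hf f' hf' h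
          rw [mem_coe, mem_filter] at hf hf'
          exact Prod.ext (hf.2.1.trans hf'.2.1.symm) h
      have c2 : #(F.filter fun f => f.2 = y ∧ #L + n - s f.1 < #L + n - s x) ≤
          #(L.filter fun w => s x < s w) := by
        refine card_le_card_of_injOn (fun f => f.1) ?_ ?_
        · intro f hf
          rw [mem_coe, hF, mem_filter, mem_filter] at hf
          rw [mem_coe, mem_filter]
          obtain ⟨⟨-, q1, q2, q3⟩, q4, q5⟩ := hf
          have q6 : s x < s f.1 := by omega
          exact ⟨q1, q6⟩
        · intro f hf f' hf' h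
          rw [mem_coe, mem_filter] at hf hf'
          exact Prod.ext h (hf.2.1.trans hf'.2.1.symm)
      have q1 := hA x hx y hy hxy
      have q2 := hB x hx
      show #(F.filter fun f => f.1 = x ∧ r y < r f.2) +
        #(F.filter fun f => f.2 = y ∧ #L + n - s f.1 < #L + n - s x) < #(Ico (s x) (D - g y))
      rw [Nat.card_Ico]
      omega)
  have hout' : ∀ v, dg (out G L) v ≤ p - 1 := by
    intro v
    by_cases hv : v ∈ L
    · have h3 : dg (out G L) v = 0 := by
        unfold dg
        rw [card_eq_zero, filter_eq_empty_iff]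
        intro w _ hw
        exact hw.2.1 hv
      omega
    · have := h2 v hv
      omega
  obtain ⟨gH, hgH⟩ := vizing hout'
  have hFm : ∀ x y, x ∈ L → y ∉ L → G.Adj x y → (x, y) ∈ F := by
    intro x y hx hy hxy
    rw [hF, mem_filter]
    exact ⟨mem_univ _, hx, hy, hxy⟩
  refine assemble (G := G) (fun v => v ∈ L) (fun v => if v ∈ L then s v else g v)
    (fun u v => (pos u + pos v) % p) gH (fun u v => φ (u, v)) D p 0 0 hp
    ?_ ?_ ?_ ?_ ?_ ?_ ?_ ?_ ?_ ?_
  · intro u v _ _ _
    refine ⟨Nat.mod_lt _ (by omega), ?_⟩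
    show (pos u + pos v) % p = (pos v + pos u) % p
    rw [Nat.add_comm]
  · intro u v w _ _ _ hv hw hne
    have q1 := a1 v hv
    have q2 := a1 w hw
    exact mod_ne (by omega) (by omega) fun h => hne (a2 v hv w hw h)
  · intro u v huv hu hv
    have h3 : (out G L).Adj u v := ⟨huv, hu, hv⟩
    have q1 := hgH.lt u v h3
    exact ⟨by omega, hgH.symm u v h3⟩
  · intro u v w huv huw hu hv hw hne h
    exact hne (hgH.inj u v w ⟨huv, hu, hv⟩ ⟨huw, hu, hw⟩ h)
  · intro u v huv hS h
    by_cases hu : u ∈ L
    · have hv := hS.1 hu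
      simp only [if_pos hu, if_pos hv] at h
      exact huv.ne (hsinj u v h)
    · have hv : v ∉ L := fun hv => hu (hS.2 hv)
      simp only [if_neg hu, if_neg hv] at h
      exact hg u v huv hu hv h
  · intro u v huv hu hv
    have h3 := (hφ _ (hFm u v hu hv huv)).1
    rw [mem_Ico] at h3
    have h3' : s u ≤ φ (u, v) ∧ φ (u, v) < D - g v := h3
    simp only [if_pos hu, if_neg hv]
    omega
  · intro u v w huv huw hu hv hw hne h
    exact ((hφ _ (hFm u v hu hv huv)).2 _ (hFm u w hu hw huw)
      (fun h' => hne (Prod.ext_iff.1 h').2.symm) h.symm).1 rfl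
  · intro u v w huv huw hu hv hw hne h
    exact ((hφ _ (hFm v u hv hu huv.symm)).2 _ (hFm w u hw hu huw.symm)
      (fun h' => hne (Prod.ext_iff.1 h').1.symm) h.symm).2 rfl
  · intro u hu
    have q1 := a1 u hu
    have q2 := hsL u hu
    simp only [if_pos hu]
    omega
  · intro u hu
    have q1 := hgb u hu
    simp only [if_neg hu]
    omega

/-- a clique `L` and a colouring of the rest with `b` colours, every vertex of the clique having a
neighbour in every class with at least two vertices -/
theorem clique_gen [Fintype V] {D p b : ℕ} (hp : 1 ≤ p)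
    (hD : ∀ v, dg G v ≤ D) (L : Finset V) (hL : ∀ x ∈ L, ∀ y ∈ L, y ≠ x → G.Adj x y)
    (h1 : #L ≤ p) (h2 : ∀ v, v ∉ L → dg (out G L) v + 1 ≤ p) (g : V → ℕ)
    (hg : ∀ u v, G.Adj u v → u ∉ L → v ∉ L → g u ≠ g v) (hgb : ∀ v, v ∉ L → g v < b)
    (hb : b + #L ≤ D + 1) (hq : ∀ x ∈ L, ∀ u v, u ∉ L → v ∉ L → u ≠ v → g u = g v →
      ∃ z, z ∉ L ∧ G.Adj x z ∧ g z = g u) : Lb G p (D + 2 * p) := by
  classical
  set N := (range b).filter fun c => ∃ u v, u ∉ L ∧ v ∉ L ∧ u ≠ v ∧ g u = c ∧ g v = c with hN
  obtain ⟨pN, n1, n2⟩ := positions N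
  obtain ⟨pO, o1, o2⟩ := positions (range b \ N)
  have hNb : #N ≤ b := by
    have := card_le_card (filter_subset (fun c => ∃ u v, u ∉ L ∧ v ∉ L ∧ u ≠ v ∧ g u = c ∧ g v = c)
      (range b))
    rwa [card_range] at this
  have hO : #(range b \ N) = b - #N := by
    rw [card_sdiff_of_subset (filter_subset _ _), card_range]
  have hmem : ∀ v, v ∉ L → g v ∉ N → g v ∈ range b \ N := fun v hv h =>
    mem_sdiff.2 ⟨mem_range.2 (hgb v hv), h⟩
  refine clique_core (q := #N) (b := b) hp hD L hL h1 h2
    (fun v => if g v ∈ N then pN (g v) else #N + pO (g v)) ?_ ?_ hb ?_ ?_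
  · intro u v huv hu hv
    have h3 := hg u v huv hu hv
    by_cases hu' : g u ∈ N <;> by_cases hv' : g v ∈ N
    · simp only [if_pos hu', if_pos hv']
      exact fun h => h3 (n2 _ hu' _ hv' h)
    · simp only [if_pos hu', if_neg hv']
      have := n1 _ hu'
      omega
    · simp only [if_neg hu', if_pos hv']
      have := n1 _ hv'
      omega
    · simp only [if_neg hu', if_neg hv']
      exact fun h => h3 (o2 _ (hmem u hu hu') _ (hmem v hv hv') (Nat.add_left_cancel h))
  · intro v hv
    by_cases hv' : g v ∈ N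
    · have := n1 _ hv'
      simp only [if_pos hv']
      omega
    · have := o1 _ (hmem v hv hv')
      simp only [if_neg hv']
      omega
  · intro x hx c hc
    -- the colour at position `c`
    have h3 : ∃ d ∈ N, pN d = c := by
      have h4 : N.image pN = range #N := by
        apply eq_of_subset_of_card_le
        · intro d hd
          obtain ⟨e, he, rfl⟩ := mem_image.1 hd
          exact mem_range.2 (n1 e he)
        · rw [card_range, card_image_of_injOn fun a ha b hb h => n2 a ha b hb h]
      have h5 : c ∈ N.image pN := by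
        rw [h4]
        exact mem_range.2 hc
      exact mem_image.1 h5
    obtain ⟨d, hd, hdc⟩ := h3
    obtain ⟨u, v, hu, hv, huv, hgu, hgv⟩ := (mem_filter.1 hd).2
    obtain ⟨z, hz1, hz2, hz3⟩ := hq x hx u v hu hv huv (hgu.trans hgv.symm)
    have h6 : g z ∈ N := by
      rw [hz3, hgu]
      exact hd
    refine ⟨z, hz1, hz2, ?_⟩
    simp only [if_pos h6]
    rw [hz3, hgu, hdc]
  · intro u v hu hv h3 h4
    by_cases hu' : g u ∈ N
    · have := n1 _ hu'
      simp only [if_pos hu'] at h3
      omega
    · by_cases hv' : g v ∈ N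
      · have := n1 _ hv'
        simp only [if_neg hu', if_pos hv'] at h4
        omega
      · simp only [if_neg hu', if_neg hv'] at h4
        have h5 := o2 _ (hmem u hu hu') _ (hmem v hv hv') (Nat.add_left_cancel h4)
        by_contra hne
        exact hu' (mem_filter.2 ⟨mem_range.2 (hgb u hu), u, v, hu, hv, hne, rfl, h5.symm⟩)

theorem clique_case [Fintype V] (C : V → ℕ) (hC : ∀ u v, G.Adj u v → C u ≠ C v)
    {χ D p : ℕ} (hχ : ∀ v, C v < χ) (ho : Opt G χ) (hp : 1 ≤ p) (hD : ∀ v, dg G v ≤ D)
    (L : Finset V) (hL : ∀ x ∈ L, ∀ v, C v = C x → v = x) (h1 : #L ≤ p)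
    (h2 : ∀ v, v ∉ L → dg (out G L) v + 1 ≤ p) : Lb G p (D + 2 * p) := by
  classical
  have hnb : ∀ x ∈ L, ∀ c < χ, c ≠ C x → ∃ z, G.Adj x z ∧ C z = c :=
    fun x hx c hc hcx => nbr C hC hχ ho (hL x hx) hcx hc
  have hLadj : ∀ x ∈ L, ∀ y ∈ L, y ≠ x → G.Adj x y := by
    intro x hx y hy hne
    obtain ⟨z, hz, hzc⟩ := hnb x hx (C y) (hχ y) fun h => hne (hL x hx y h)
    rw [← hL y hy z hzc]
    exact hz
  obtain ⟨k, hk1, hk2⟩ := greedy G D hD
  have hχD : χ ≤ D + 1 := ho k (D + 1) hk2 hk1
  have hout : ∀ y, y ∉ L → C y ∈ range χ \ L.image C := by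
    intro y hy
    rw [mem_sdiff]
    refine ⟨mem_range.2 (hχ y), fun h => ?_⟩
    obtain ⟨x, hx, hxy⟩ := mem_image.1 h
    rw [hL x hx y hxy.symm] at hy
    exact hy hx
  have hcard : #(L.image C) = #L := card_image_of_injOn fun a ha b hb h => hL b hb a h
  have hsub : L.image C ⊆ range χ := by
    intro c hc
    obtain ⟨x, -, rfl⟩ := mem_image.1 hc
    exact mem_range.2 (hχ x)
  have hcard2 : #(range χ \ L.image C) = χ - #L := by
    rw [card_sdiff_of_subset hsub, card_range, hcard]
  have hle : #L ≤ χ := by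
    rw [← hcard, ← card_range χ]
    exact card_le_card hsub
  obtain ⟨pos, p1, p2⟩ := positions (range χ \ L.image C)
  refine clique_gen (b := χ - #L) hp hD L hLadj h1 h2 (fun v => pos (C v)) ?_ ?_ (by omega) ?_
  · intro u v huv hu hv h
    exact hC u v huv (p2 _ (hout u hu) _ (hout v hv) h)
  · intro v hv
    rw [← hcard2]
    exact p1 _ (hout v hv)
  · intro x hx u v hu hv huv h
    have h3 := hout u hu
    obtain ⟨z, hz1, hz2⟩ := hnb x hx (C u) (hχ u) fun h => by
      rw [mem_sdiff] at h3
      exact h3.2 (h ▸ mem_image_of_mem C hx)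
    refine ⟨z, fun hz => ?_, hz1, by rw [hz2]⟩
    rw [mem_sdiff] at h3
    exact h3.2 (hz2 ▸ mem_image_of_mem C hz)

end Pool.T9h45.HD
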