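import Pool.Agent.T9h45.HD.Asm

/-!
# Labellings of graphs with small chromatic number
-/

set_option autoImplicit false

namespace Pool.T9h45.HD

open Finset Pool.T9h45.HY

variable {V : Type} {G : SimpleGraph V}

theorem cc_ne {m K s t : ℕ} (hK : 2 * K ≤ m) (hs : s < 2 * m) (ht : t < 2 * m) (hne : s ≠ t)
    (h1 : s < t + m) (h2 : t < s + m) : cc m K s ≠ cc m K t := by
  rcases Nat.lt_or_gt_of_ne hne with h | h
  · exact cc_inj hK hs ht h h2
  · exact (cc_inj hK ht hs h h1).symm

theorem core [Fintype V] [DecidableEq V] (C : V → ℕ) (hC : ∀ u v, G.Adj u v → C u ≠ C v)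
    {K D p t m m' : ℕ} (hp : 1 ≤ p) (L : Finset V) (hL : #L = m) (hH : #(univ \ L) = m')
    (sL : #(L.image C) + K ≤ #L) (sH : #((univ \ L).image C) + K ≤ #(univ \ L))
    (hm : m' ≤ m) (hK : 2 * K ≤ m') (hmp : m ≤ p + t) (hD : m + m' + 2 * t ≤ D + K + 1) :
    Lb G p (D + 2 * p) := by
  obtain ⟨posL, fL, a1, a2, a3, a4⟩ := enum C _ K L rfl sL
  obtain ⟨posH, fH, b1, b2, b3, b4⟩ := enum C _ K (univ \ L) rfl sH
  have hmem : ∀ v, v ∉ L → v ∈ univ \ L := fun v hv => mem_sdiff.2 ⟨mem_univ _, hv⟩
  rw [hL] at a1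
  rw [hH] at b1
  have hsum : ∀ (pos : V → ℕ) (A : Finset V) (M : ℕ) (_ : ∀ v ∈ A, pos v < M)
      (_ : ∀ u ∈ A, ∀ v ∈ A, pos u = pos v → u = v) (u v w : V), v ∈ A → w ∈ A → v ≠ w →
      (pos u + pos v) % M ≠ (pos u + pos w) % M := by
    intro pos A M g1 g2 u v w hv hw hne
    exact mod_ne (g1 v hv) (g1 w hw) fun h => hne (g2 v hv w hw h)
  refine assemble (G := G) (fun v => v ∈ L) (fun v => if v ∈ L then fL v else fH v)
    (fun u v => (posL u + posL v) % (p + t)) (fun u v => (posH u + posH v) % (p + t))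
    (fun u v => t + cc m K (posL u + (m' - 1 - posH v))) D p t t hp ?_ ?_ ?_ ?_ ?_ ?_ ?_ ?_ ?_ ?_
  · intro u v _ _ _
    refine ⟨Nat.mod_lt _ (by omega), ?_⟩
    show (posL u + posL v) % (p + t) = (posL v + posL u) % (p + t)
    rw [Nat.add_comm]
  · intro u v w _ _ _ hv hw hne
    exact hsum posL L (p + t) (fun v hv => by have := a1 v hv; omega) a2 u v w hv hw hne
  · intro u v _ _ _
    refine ⟨Nat.mod_lt _ (by omega), ?_⟩
    show (posH u + posH v) % (p + t) = (posH v + posH u) % (p + t)
    rw [Nat.add_comm]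
  · intro u v w _ _ _ hv hw hne
    exact hsum posH (univ \ L) (p + t) (fun v hv => by have := b1 v hv; omega) b2 u v w
      (hmem v hv) (hmem w hw) hne
  · intro u v huv hS h
    by_cases hu : u ∈ L
    · have hv := hS.1 hu
      simp only [if_pos hu, if_pos hv] at h
      exact hC u v huv (a4 u hu v hv h)
    · have hv : v ∉ L := fun hv => hu (hS.2 hv)
      simp only [if_neg hu, if_neg hv] at h
      exact hC u v huv (b4 u (hmem u hu) v (hmem v hv) h)
  · intro u v _ hu hv
    have q1 := a1 u hu
    have q2 := b1 v (hmem v hv)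
    have q3 := a3 u hu
    have q4 := b3 v (hmem v hv)
    have q5 := cc_low (m := m) (K := K) (s := posL u + (m' - 1 - posH v)) (x := posL u)
      (by omega) q1 (by omega) (by omega)
    have q6 := cc_high (m := m) (m' := m') (K := K) (x := posL u) (y := posH v) hK hm q1 q2
    simp only [if_pos hu, if_neg hv]
    omega
  · intro u v w _ _ hu hv hw hne h
    have q1 := a1 u hu
    have q2 := b1 v (hmem v hv)
    have q3 := b1 w (hmem w hw)
    have q4 : posH v ≠ posH w := fun h => hne (b2 v (hmem v hv) w (hmem w hw) h)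
    exact cc_ne (m := m) (K := K) (s := posL u + (m' - 1 - posH v))
      (t := posL u + (m' - 1 - posH w)) (by omega) (by omega) (by omega) (by omega) (by omega)
      (by omega) (Nat.add_left_cancel h)
  · intro u v w _ _ hu hv hw hne h
    have q1 := b1 u (hmem u hu)
    have q2 := a1 v hv
    have q3 := a1 w hw
    have q4 : posL v ≠ posL w := fun h => hne (a2 v hv w hw h)
    exact cc_ne (m := m) (K := K) (s := posL v + (m' - 1 - posH u))
      (t := posL w + (m' - 1 - posH u)) (by omega) (by omega) (by omega) (by omega) (by omega)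
      (by omega) (Nat.add_left_cancel h)
  · intro u hu
    have q1 := a1 u hu
    have q2 := a3 u hu
    have q3 := fh_le K (posL u)
    simp only [if_pos hu]
    omega
  · intro u hu
    have q1 := b1 u (hmem u hu)
    have q2 := b3 u (hmem u hu)
    have q3 := fh_le K (posH u)
    simp only [if_neg hu]
    omega

/-- graphs with small chromatic number -/
theorem good [Fintype V] (C : V → ℕ) (hC : ∀ u v, G.Adj u v → C u ≠ C v) {χ K D p t : ℕ}
    (hχ : ∀ v, C v < χ) (hp : 1 ≤ p) (h1 : χ + (2 * K + 1) ≤ Fintype.card V)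
    (h2 : 4 * K ≤ Fintype.card V) (h3 : Fintype.card V ≤ 2 * (p + t))
    (hD : Fintype.card V + 2 * t ≤ D + K + 1) : Lb G p (D + 2 * p) := by
  classical
  have h4 : #((univ : Finset V).image C) ≤ χ := by
    have : (univ : Finset V).image C ⊆ range χ := by
      intro c hc
      obtain ⟨v, -, rfl⟩ := mem_image.1 hc
      exact mem_range.2 (hχ v)
    simpa using card_le_card this
  obtain ⟨L, l1, l2, l3, l4⟩ := halves C (K := K) (m := Fintype.card V - Fintype.card V / 2)
    (m' := Fintype.card V / 2) (by omega) (by omega) (by omega) (by omega)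
  exact core (t := t) C hC hp L l1 l2 l3 l4 (by omega) (by omega) (by omega) (by omega)

/-- graphs with at most `D + 1` vertices -/
theorem few [Fintype V] {D p : ℕ} (hp : 1 ≤ p) (h3 : Fintype.card V ≤ 2 * p)
    (hD : Fintype.card V ≤ D + 1) : Lb G p (D + 2 * p) := by
  classical
  obtain ⟨pos, p1, p2⟩ := positions (univ : Finset V)
  obtain ⟨L, -, hL⟩ := exists_subset_card_eq (s := (univ : Finset V))
    (n := Fintype.card V - Fintype.card V / 2) (by rw [card_univ]; omega)
  have hc : #(univ \ L) = #(univ : Finset V) - #L := card_sdiff_of_subset (subset_univ _)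
  rw [card_univ] at hc
  exact core (K := 0) (t := 0) (m := Fintype.card V - Fintype.card V / 2)
    (m' := Fintype.card V / 2) pos
    (fun u v h e => G.ne_of_adj h (p2 u (mem_univ _) v (mem_univ _) e)) hp L hL (by omega)
    (by rw [Nat.add_zero]; exact card_image_le) (by rw [Nat.add_zero]; exact card_image_le) (by omega)
    (by omega) (by omega) (by omega)

end Pool.T9h45.HD
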