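import Pool.Agent.T9h45.HD.Gal

/-!
# Colourings with many classes of size one
-/

set_option autoImplicit false

namespace Pool.T9h45.HD

open Finset Pool.T9h45.HY Pool.Q6.CI

variable {V : Type} {G : SimpleGraph V}

theorem opt_le [Fintype V] (C : V → ℕ) (hC : ∀ u v, G.Adj u v → C u ≠ C v) {χ : ℕ}
    (ho : Opt G χ) : χ ≤ #((univ : Finset V).image C) := by
  classical
  obtain ⟨pos, h1, h2⟩ := positions ((univ : Finset V).image C)
  refine ho (fun v => pos (C v)) _ ?_ fun v => h1 _ (mem_image_of_mem C (mem_univ v))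
  intro u v huv h
  exact hC u v huv (h2 _ (mem_image_of_mem C (mem_univ u)) _ (mem_image_of_mem C (mem_univ v)) h)

/-- at most `2 (n - χ)` vertices are not alone in their class -/
theorem single_count [Fintype V] [DecidableEq V] (C : V → ℕ)
    (hC : ∀ u v, G.Adj u v → C u ≠ C v) {χ : ℕ} (ho : Opt G χ) :
    2 * χ ≤ Fintype.card V + #(univ.filter fun v => ∀ w, C w = C v → w = v) := by
  classical
  set S := univ.filter fun v => ∀ w, C w = C v → w = v with hS
  set W := univ \ S with hW
  have h1 := opt_le C hC ho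
  have h2 : #W = #(univ : Finset V) - #S := card_sdiff_of_subset (subset_univ _)
  have h2' : #S ≤ #(univ : Finset V) := card_le_card (subset_univ _)
  have h3 : #((univ : Finset V).image C) ≤ #S + #(W.image C) := by
    have h4 : (univ : Finset V) = S ∪ W := by rw [hW, union_sdiff_of_subset (subset_univ _)]
    rw [h4, image_union]
    exact (card_union_le _ _).trans (Nat.add_le_add_right card_image_le _)
  have h5 : 2 * #(W.image C) ≤ #W := by
    rw [card_eq_sum_card_image C W, mul_comm, ← smul_eq_mul]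
    refine card_nsmul_le_sum _ _ _ ?_
    intro c hc
    obtain ⟨w, hw, rfl⟩ := mem_image.1 hc
    have h6 : ¬ ∀ v, C v = C w → v = w := by
      intro h
      exact (mem_sdiff.1 hw).2 (mem_filter.2 ⟨mem_univ _, h⟩)
    push Not at h6
    obtain ⟨v, hv, hvw⟩ := h6
    have h7 : v ∈ W := by
      rw [hW, mem_sdiff]
      refine ⟨mem_univ _, fun h => ?_⟩
      exact hvw ((mem_filter.1 h).2 w hv.symm).symm
    have h8 : ({v, w} : Finset V) ⊆ W.filter fun x => C x = C w := by
      intro x hx
      rw [mem_insert, mem_singleton] at hx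
      rw [mem_filter]
      rcases hx with rfl | rfl
      · exact ⟨h7, hv⟩
      · exact ⟨hw, rfl⟩
    have h9 := card_le_card h8
    rwa [card_pair hvw] at h9
  rw [← card_univ]
  omega

theorem large [Fintype V] [DecidableEq V] (C : V → ℕ) (hC : ∀ u v, G.Adj u v → C u ≠ C v)
    {χ D p : ℕ} (hχ : ∀ v, C v < χ) (ho : Opt G χ) (hp : 1 ≤ p) (hD : ∀ v, dg G v ≤ D)
    (hn : Fintype.card V ≤ 2 * p)
    (h : Fintype.card V ≤ p + #(univ.filter fun v => ∀ w, C w = C v → w = v)) :
    Lb G p (D + 2 * p) := by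
  classical
  set S := univ.filter fun v => ∀ w, C w = C v → w = v with hS
  obtain ⟨L, hLS, hL⟩ := exists_subset_card_eq (s := S) (n := min #S p) (min_le_left _ _)
  refine clique_case C hC hχ ho hp hD L ?_ (by rw [hL]; exact min_le_right _ _) ?_
  · intro x hx
    exact (mem_filter.1 (hLS hx)).2
  · intro v hv
    have h1 : (univ.filter fun w => (out G L).Adj v w) ⊆ (univ \ L).erase v := by
      intro w hw
      have h2 := (mem_filter.1 hw).2
      rw [mem_erase, mem_sdiff]
      exact ⟨(G.ne_of_adj h2.1).symm, mem_univ _, h2.2.2⟩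
    have h3 := card_le_card h1
    rw [card_erase_of_mem (mem_sdiff.2 ⟨mem_univ _, hv⟩), card_sdiff_of_subset (subset_univ _),
      card_univ, hL] at h3
    have h4 : 0 < Fintype.card V := Fintype.card_pos_iff.2 ⟨v⟩
    have h5 : min #S p ≤ Fintype.card V := by
      rw [← hL, ← card_univ]
      exact card_le_card (subset_univ _)
    have h6 : L ⊆ univ.erase v := by
      intro w hw
      rw [mem_erase]
      exact ⟨fun h => hv (h ▸ hw), mem_univ _⟩
    have h7 := card_le_card h6
    rw [card_erase_of_mem (mem_univ _), card_univ, hL] at h7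
    have h8 : dg (out G L) v ≤ Fintype.card V - min #S p - 1 := by
      unfold dg
      convert h3
    rcases Nat.le_total #S p with h9 | h9
    · rw [min_eq_left h9] at h7 h8
      omega
    · rw [min_eq_right h9] at h7 h8
      omega

/-- a colouring with the smallest number of colours -/
theorem exists_opt [Fintype V] : ∃ (χ : ℕ) (C : V → ℕ), (∀ u v, G.Adj u v → C u ≠ C v) ∧
    (∀ v, C v < χ) ∧ Opt G χ := by
  classical
  have h : ∃ k : ℕ, ∃ C : V → ℕ, (∀ u v, G.Adj u v → C u ≠ C v) ∧ ∀ v, C v < k := by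
    obtain ⟨pos, h1, h2⟩ := positions (univ : Finset V)
    exact ⟨_, pos, fun u v huv e => G.ne_of_adj huv (h2 u (mem_univ _) v (mem_univ _) e),
      fun v => h1 v (mem_univ v)⟩
  obtain ⟨C, h1, h2⟩ := Nat.find_spec h
  exact ⟨Nat.find h, C, h1, h2, fun C' k h3 h4 => Nat.find_min' h ⟨C', h3, h4⟩⟩

/-- at most `2 p` vertices, large chromatic number -/
theorem large_chi [Fintype V] {χ D p : ℕ} (C : V → ℕ) (hC : ∀ u v, G.Adj u v → C u ≠ C v)
    (hχ : ∀ v, C v < χ) (ho : Opt G χ) (hp : 1 ≤ p) (hD : ∀ v, dg G v ≤ D)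
    (hn : Fintype.card V ≤ 2 * p) (h : 2 * Fintype.card V ≤ 2 * χ + p) : Lb G p (D + 2 * p) := by
  classical
  have h1 := single_count C hC ho
  exact large C hC hχ ho hp hD hn (by omega)

/-- dense graphs with at most `2 p` vertices -/
theorem dense [Fintype V] {D p : ℕ} (hp : 1 ≤ p) (hD : ∀ v, dg G v ≤ D)
    (hn : Fintype.card V ≤ 2 * p) (h : 7 * Fintype.card V ≤ 8 * D + 8) : Lb G p (D + 2 * p) := by
  obtain ⟨χ, C, hC, hχ, ho⟩ := exists_opt (G := G)
  by_cases h1 : Fintype.card V ≤ D + 1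
  · exact few hp hn h1
  · by_cases h2 : Fintype.card V + χ ≤ 2 * D + 1
    · exact good (K := Fintype.card V - 1 - D) (t := 0) C hC hχ hp (by omega) (by omega) (by omega)
        (by omega)
    · exact large_chi C hC hχ ho hp hD hn (by omega)

/-- graphs with a `p`-colouring -/
theorem few_colours [Fintype V] {D p : ℕ} (hp : 1 ≤ p) (hD : ∀ v, dg G v ≤ D) (C : V → ℕ)
    (hC : ∀ u v, G.Adj u v → C u ≠ C v) (hχ : ∀ v, C v < p) : Lb G p (D + 2 * p) := by
  have h1 := lab_simple G p p (D + 1) hp C hχ hC (vizing hD) hp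
  have h2 : p + p - 1 + (D + 1) = D + 2 * p := by omega
  rwa [h2] at h1

/-- at most `2 p` vertices, small chromatic number -/
theorem small_chi [Fintype V] {χ D p : ℕ} (C : V → ℕ) (hC : ∀ u v, G.Adj u v → C u ≠ C v)
    (hχ : ∀ v, C v < χ) (hp : 1 ≤ p) (hD : ∀ v, dg G v ≤ D)
    (hn : Fintype.card V ≤ 2 * p) (h : Fintype.card V + χ ≤ 2 * D + 1) : Lb G p (D + 2 * p) := by
  by_cases h1 : Fintype.card V ≤ D + 1
  · exact few hp hn h1
  · by_cases h2 : χ ≤ p
    · exact few_colours hp hD C hC fun v => (hχ v).trans_le h2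
    · exact good (K := Fintype.card V - 1 - D) (t := 0) C hC hχ hp (by omega) (by omega) (by omega)
        (by omega)

/-- small chromatic number, with an improved bound for `p` -/
theorem small_chi_t [Fintype V] {χ D p t : ℕ} (C : V → ℕ) (hC : ∀ u v, G.Adj u v → C u ≠ C v)
    (hχ : ∀ v, C v < χ) (hp : 1 ≤ p) (hDn : D + 1 ≤ Fintype.card V)
    (hn : Fintype.card V ≤ 2 * (p + t)) (h : Fintype.card V + χ + 4 * t ≤ 2 * D + 1)
    (h' : 3 * Fintype.card V + 8 * t ≤ 4 * D + 4) : Lb G p (D + 2 * p) :=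
  good (K := Fintype.card V + 2 * t - 1 - D) (t := t) C hC hχ hp (by omega) (by omega) (by omega)
    (by omega)

end Pool.T9h45.HD
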