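import Mathlib

/-!
# The colours of the edges of a complete bipartite graph with release times and deadlines
-/

set_option autoImplicit false

namespace Pool.T9h45.HD

/-- the label at position `j` if `2 K` positions are taken by pairs -/
def fh (K j : ℕ) : ℕ := j - min ((j + 1) / 2) K

/-- the colour of the sum `s` of two positions -/
def cc (m K s : ℕ) : ℕ :=
  if s < m then
    (if s < 2 * K then (if s % 2 = 0 then m - K + s / 2 else (s - 1) / 2) else s - K)
  else
    (if s - m < 2 * K then (if (s - m) % 2 = 0 then m - K + (s - m) / 2 else m + (s - m - 1) / 2)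
      else m + (s - m - K))

theorem cc_inj {m K s t : ℕ} (hK : 2 * K ≤ m) (hs : s < 2 * m) (ht : t < 2 * m) (h1 : s < t)
    (h2 : t < s + m) : cc m K s ≠ cc m K t := by
  unfold cc
  split_ifs <;> omega

theorem cc_low {m K s x : ℕ} (hK : 2 * K ≤ m) (hx : x < m) (hxs : x ≤ s) (hs : s < 2 * m) :
    fh K x ≤ cc m K s := by
  unfold cc fh
  split_ifs <;> omega

theorem cc_high {m m' K x y : ℕ} (hK : 2 * K ≤ m') (hm : m' ≤ m) (hx : x < m) (hy : y < m') :
    cc m K (x + (m' - 1 - y)) + fh K y + K + 2 ≤ m + m' := by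
  unfold cc fh
  split_ifs <;> omega

theorem fh_zero (j : ℕ) : fh 0 j = j := by
  unfold fh
  omega

theorem fh_le (K j : ℕ) : fh K j ≤ j := by
  unfold fh
  omega

/-- adding a class with `q` elements in front -/
theorem fh_step {K K' q j : ℕ} (hq : 2 ≤ q) (hK : K' + (q - 1) = K) :
    1 + fh K' j ≤ fh K (q + j) := by
  unfold fh
  omega

end Pool.T9h45.HD
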