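import Pool.Agent.T9h45.HD.Large

/-!
# Graphs which become `p`-colourable after the removal of one vertex, and components
-/

set_option autoImplicit false

namespace Pool.T9h45.HD

open Finset Pool.T9h45.HY Pool.Q6.CI

variable {V : Type} {G : SimpleGraph V}

/-- the graph without the edges from `v` to `Z` -/
def del (G : SimpleGraph V) (v : V) (Z : Finset V) : SimpleGraph V where
  Adj u w := G.Adj u w ∧ ¬ (u = v ∧ w ∈ Z) ∧ ¬ (w = v ∧ u ∈ Z)
  symm := ⟨fun _ _ h => ⟨h.1.symm, h.2.2, h.2.1⟩⟩
  loopless := ⟨fun _ h => G.ne_of_adj h.1 rfl⟩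

/-- a renumbering of the colours which makes the colours in `A` small -/
theorem renumber (A : Finset ℕ) (n : ℕ) (hA : A ⊆ range n) : ∃ π : ℕ → ℕ,
    (∀ a < n, ∀ b < n, π a = π b → a = b) ∧ (∀ a < n, π a < n) ∧ ∀ a ∈ A, π a < #A := by
  classical
  obtain ⟨pA, a1, a2⟩ := positions A
  obtain ⟨pB, b1, b2⟩ := positions (range n \ A)
  have hc : #(range n \ A) = n - #A := by rw [card_sdiff_of_subset hA, card_range]
  have hle := card_le_card hA
  rw [card_range] at hle
  have hmem : ∀ a < n, a ∉ A → a ∈ range n \ A := fun a ha h => mem_sdiff.2 ⟨mem_range.2 ha, h⟩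
  refine ⟨fun a => if a ∈ A then pA a else #A + pB a, ?_, ?_, ?_⟩
  · intro a ha b hb h
    by_cases ha' : a ∈ A <;> by_cases hb' : b ∈ A
    · simp only [if_pos ha', if_pos hb'] at h
      exact a2 a ha' b hb' h
    · simp only [if_pos ha', if_neg hb'] at h
      have := a1 a ha'
      omega
    · simp only [if_neg ha', if_pos hb'] at h
      have := a1 b hb'
      omega
    · simp only [if_neg ha', if_neg hb'] at h
      exact b2 a (hmem a ha ha') b (hmem b hb hb') (Nat.add_left_cancel h)
  · intro a ha
    by_cases ha' : a ∈ A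
    · have := a1 a ha'
      simp only [if_pos ha']
      omega
    · have := b1 a (hmem a ha ha')
      simp only [if_neg ha']
      omega
  · intro a ha
    simp only [if_pos ha]
    exact a1 a ha

theorem one_vertex [Fintype V] [DecidableEq V] {D p : ℕ} (hp : 1 ≤ p) (hD : ∀ v, dg G v ≤ D)
    (v : V) (f : V → ℕ) (hf : ∀ u w, G.Adj u w → u ≠ v → w ≠ v → f u ≠ f w)
    (hfp : ∀ u, u ≠ v → f u < p) : Lb G p (D + 2 * p) := by
  classical
  by_cases hex : ∃ c < p, ∀ z, G.Adj v z → f z ≠ c
  · obtain ⟨c, hc, hz⟩ := hex
    refine few_colours hp hD (fun u => if u = v then c else f u) ?_ ?_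
    · intro u w huw
      by_cases hu : u = v <;> by_cases hw : w = v
      · exact absurd (hu.trans hw.symm) huw.ne
      · simp only [if_pos hu, if_neg hw]
        exact (hz w (hu ▸ huw)).symm
      · simp only [if_neg hu, if_pos hw]
        exact hz u (hw ▸ huw.symm)
      · simp only [if_neg hu, if_neg hw]
        exact hf u w huw hu hw
    · intro u
      by_cases hu : u = v
      · simp only [if_pos hu]
        exact hc
      · simp only [if_neg hu]
        exact hfp u hu
  · push Not at hex
    have hz : ∀ c, ∃ z, c < p → (G.Adj v z ∧ f z = c) := by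
      intro c
      by_cases hc : c < p
      · obtain ⟨z, hz⟩ := hex c hc
        exact ⟨z, fun _ => hz⟩
      · exact ⟨v, fun h => absurd h hc⟩
    choose z hz using hz
    set Z := (range (p - 1)).image z with hZ
    have hZc : #Z = p - 1 := by
      rw [hZ, card_image_of_injOn, card_range]
      intro c hc c' hc' h
      rw [mem_coe, mem_range] at hc hc'
      rw [← (hz c (by omega)).2, ← (hz c' (by omega)).2, h]
    have hZadj : ∀ w ∈ Z, G.Adj v w ∧ f w + 1 < p := by
      intro w hw
      obtain ⟨c, hc, rfl⟩ := mem_image.1 hw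
      rw [mem_range] at hc
      have h3 := hz c (by omega)
      exact ⟨h3.1, by omega⟩
    have hZinj : ∀ w ∈ Z, ∀ w' ∈ Z, f w = f w' → w = w' := by
      intro w hw w' hw' h
      obtain ⟨c, hc, rfl⟩ := mem_image.1 hw
      obtain ⟨c', hc', rfl⟩ := mem_image.1 hw'
      rw [mem_range] at hc hc'
      rw [(hz c (by omega)).2, (hz c' (by omega)).2] at h
      rw [h]
    have hvZ : v ∉ Z := fun h => G.ne_of_adj (hZadj v h).1 rfl
    -- the degree of `v` is at least `p`
    have hDp : p ≤ D := by
      have h3 : (range p).image z ⊆ univ.filter fun w => G.Adj v w := by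
        intro w hw
        obtain ⟨c, hc, rfl⟩ := mem_image.1 hw
        exact mem_filter.2 ⟨mem_univ _, (hz c (mem_range.1 hc)).1⟩
      have h4 := card_le_card h3
      rw [card_image_of_injOn (by
        intro c hc c' hc' h
        rw [mem_coe, mem_range] at hc hc'
        rw [← (hz c hc).2, ← (hz c' hc').2, h]), card_range] at h4
      have h5 := hD v
      unfold dg at h5
      refine h4.trans (le_trans (le_of_eq ?_) h5)
      congr
    have hdel : ∀ u, dg (del G v Z) u ≤ D := by
      intro u
      refine le_trans ?_ (hD u)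
      unfold dg
      refine card_le_card ?_
      intro w hw
      rw [mem_filter] at hw ⊢
      exact ⟨hw.1, hw.2.1⟩
    obtain ⟨e, he⟩ := vizing hdel
    -- the colours at `v`
    set A := (univ.filter fun w => (del G v Z).Adj v w).image (e v) with hA
    have hAr : A ⊆ range (D + 1) := by
      intro c hc
      obtain ⟨w, hw, rfl⟩ := mem_image.1 hc
      exact mem_range.2 (he.lt v w (mem_filter.1 hw).2)
    have hAc : #A + (p - 1) ≤ D := by
      have h3 : (univ.filter fun w => (del G v Z).Adj v w) ∪ Z ⊆
          univ.filter fun w => G.Adj v w := by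
        intro w hw
        rw [mem_union, mem_filter] at hw
        rw [mem_filter]
        rcases hw with hw | hw
        · exact ⟨mem_univ _, hw.2.1⟩
        · exact ⟨mem_univ _, (hZadj w hw).1⟩
      have hd : Disjoint (univ.filter fun w => (del G v Z).Adj v w) Z := by
        rw [disjoint_left]
        intro w hw hw'
        exact (mem_filter.1 hw).2.2.1 ⟨rfl, hw'⟩
      have h4 := card_le_card h3
      rw [card_union_of_disjoint hd, hZc] at h4
      have h5 := hD v
      unfold dg at h5
      have h6 : #(univ.filter fun w => G.Adj v w) ≤ D := by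
        convert h5
      have h7 : #A ≤ #(univ.filter fun w => (del G v Z).Adj v w) := card_image_le
      omega
    obtain ⟨π, π1, π2, π3⟩ := renumber A (D + 1) hAr
    have hEdge : ∀ u w, G.Adj u w → ¬ (u = v ∧ w ∈ Z) → ¬ (w = v ∧ u ∈ Z) →
        (del G v Z).Adj u w := fun u w h h' h'' => ⟨h, h', h''⟩
    refine ⟨fun u => if u = v then D + 2 * p - 1 else f u, fun u w =>
      if u = v ∧ w ∈ Z then p + f w else if w = v ∧ u ∈ Z then p + f u else
        2 * p - 1 + π (e u w), ?_, ?_, ?_, ?_, ?_, ?_⟩
    · intro u
      by_cases hu : u = v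
      · simp only [if_pos hu]
        omega
      · have := hfp u hu
        simp only [if_neg hu]
        omega
    · intro u w huw
      by_cases h3 : u = v ∧ w ∈ Z
      · have := (hZadj w h3.2).2
        simp only [if_pos h3]
        omega
      · by_cases h4 : w = v ∧ u ∈ Z
        · have := (hZadj u h4.2).2
          simp only [if_neg h3, if_pos h4]
          omega
        · have h5 := hEdge u w huw h3 h4
          have h6 := π2 _ (he.lt u w h5)
          simp only [if_neg h3, if_neg h4]
          omega
    · intro u w huw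
      by_cases h3 : u = v ∧ w ∈ Z
      · have h4 : ¬ (w = v ∧ u ∈ Z) := fun h => hvZ (h3.1 ▸ h.2)
        simp only [if_pos h3, if_neg h4]
      · by_cases h4 : w = v ∧ u ∈ Z
        · simp only [if_neg h3, if_pos h4]
        · simp only [if_neg h3, if_neg h4]
          rw [he.symm u w (hEdge u w huw h3 h4)]
    · intro u w huw
      by_cases hu : u = v <;> by_cases hw : w = v
      · exact absurd (hu.trans hw.symm) huw.ne
      · have := hfp w hw
        simp only [if_pos hu, if_neg hw]
        omega
      · have := hfp u hu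
        simp only [if_neg hu, if_pos hw]
        omega
      · simp only [if_neg hu, if_neg hw]
        exact hf u w huw hu hw
    · intro u w w' huw huw' hne
      have hlt : ∀ a, a ∈ Z → f a + 1 < p := fun a ha => (hZadj a ha).2
      by_cases h3 : u = v ∧ w ∈ Z
      · have h3' : ¬ (w = v ∧ u ∈ Z) := fun h => hvZ (h3.1 ▸ h.2)
        by_cases h4 : u = v ∧ w' ∈ Z
        · simp only [if_pos h3, if_pos h4]
          intro h
          exact hne (hZinj w h3.2 w' h4.2 (Nat.add_left_cancel h))
        · have h5 : ¬ (w' = v ∧ u ∈ Z) := fun h => hvZ (h3.1 ▸ h.2)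
          have := hlt w h3.2
          simp only [if_pos h3, if_neg h4, if_neg h5]
          omega
      · by_cases h4 : w = v ∧ u ∈ Z
        · have h5 : ¬ (u = v ∧ w' ∈ Z) := fun h => hvZ (h.1 ▸ h4.2)
          have h6 : ¬ (w' = v ∧ u ∈ Z) := fun h => hne (h4.1.trans h.1.symm)
          have := hlt u h4.2
          simp only [if_neg h3, if_pos h4, if_neg h5, if_neg h6]
          omega
        · by_cases h5 : u = v ∧ w' ∈ Z
          · have := hlt w' h5.2
            simp only [if_neg h3, if_neg h4, if_pos h5]
            omega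
          · by_cases h6 : w' = v ∧ u ∈ Z
            · have := hlt u h6.2
              simp only [if_neg h3, if_neg h4, if_neg h5, if_pos h6]
              omega
            · simp only [if_neg h3, if_neg h4, if_neg h5, if_neg h6]
              have h7 := hEdge u w huw h3 h4
              have h8 := hEdge u w' huw' h5 h6
              intro h
              exact hne (he.inj u w w' h7 h8 (π1 _ (he.lt u w h7) _ (he.lt u w' h8)
                (Nat.add_left_cancel h)))
    · intro u w huw
      by_cases h3 : u = v ∧ w ∈ Z
      · have := (hZadj w h3.2).2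
        simp only [if_pos h3, if_pos h3.1]
        rw [abs_sub_comm]
        refine far ?_
        omega
      · by_cases h4 : w = v ∧ u ∈ Z
        · have hu : u ≠ v := fun h => hvZ (h ▸ h4.2)
          simp only [if_neg h3, if_pos h4, if_neg hu]
          exact far le_rfl
        · have h5 := hEdge u w huw h3 h4
          simp only [if_neg h3, if_neg h4]
          by_cases hu : u = v
          · have h6 : e u w ∈ A := by
              rw [hA, ← hu]
              exact mem_image_of_mem _ (mem_filter.2 ⟨mem_univ _, hu ▸ h5⟩)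
            have h7 := π3 _ h6
            simp only [if_pos hu]
            rw [abs_sub_comm]
            refine far ?_
            omega
          · have := hfp u hu
            simp only [if_neg hu]
            refine far ?_
            omega

/-- labellings of the parts of a partition without edges between the parts -/
theorem glue {ι : Type} [DecidableEq ι] (t : V → ι) (ht : ∀ u v, G.Adj u v → t u = t v) {p N : ℕ}
    (h : ∀ i, Lb (G.induce {v | t v = i}) p N) : Lb G p N := by
  choose a e h1 h2 h3 h4 h5 h6 using h
  let e' : ι → V → V → ℕ := fun i u v => if h : t u = i ∧ t v = i then e i ⟨u, h.1⟩ ⟨v, h.2⟩ else 0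
  have he' : ∀ i u v (hu : t u = i) (hv : t v = i), e' i u v = e i ⟨u, hu⟩ ⟨v, hv⟩ := by
    intro i u v hu hv
    simp only [e', dif_pos (And.intro hu hv)]
  have hadj : ∀ i u v (hu : t u = i) (hv : t v = i), G.Adj u v →
      (G.induce {v | t v = i}).Adj ⟨u, hu⟩ ⟨v, hv⟩ := fun i u v hu hv h => h
  refine ⟨fun v => a (t v) ⟨v, rfl⟩, fun u v => e' (t u) u v, ?_, ?_, ?_, ?_, ?_, ?_⟩
  · intro v
    exact h1 _ _
  · intro u v huv
    show e' (t u) u v < N
    rw [he' (t u) u v rfl (ht u v huv).symm]
    exact h2 _ _ _ (hadj _ _ _ _ _ huv)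
  · intro u v huv
    show e' (t u) u v = e' (t v) v u
    rw [← ht u v huv, he' (t u) u v rfl (ht u v huv).symm, he' (t u) v u (ht u v huv).symm rfl]
    exact h3 _ _ _ (hadj _ _ _ _ _ huv)
  · intro u v huv
    have key : ∀ i (hu : t u = i) (hv : t v = i), a i ⟨u, hu⟩ ≠ a i ⟨v, hv⟩ := fun i hu hv =>
      h4 i _ _ (hadj _ _ _ _ _ huv)
    have h7 : a (t v) ⟨v, rfl⟩ = a (t u) ⟨v, (ht u v huv).symm⟩ := by
      have : ∀ i (hv : t v = i), a (t v) ⟨v, rfl⟩ = a i ⟨v, hv⟩ := by
        rintro i rfl
        rfl
      exact this _ _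
    show a (t u) ⟨u, rfl⟩ ≠ a (t v) ⟨v, rfl⟩
    rw [h7]
    exact key _ _ _
  · intro u v w huv huw hne
    show e' (t u) u v ≠ e' (t u) u w
    rw [he' (t u) u v rfl (ht u v huv).symm, he' (t u) u w rfl (ht u w huw).symm]
    exact h5 _ _ _ _ (hadj _ _ _ _ _ huv) (hadj _ _ _ _ _ huw) fun h => hne (congrArg Subtype.val h)
  · intro u v huv
    show (p : ℤ) ≤ |(a (t u) ⟨u, rfl⟩ : ℤ) - (e' (t u) u v : ℤ)|
    rw [he' (t u) u v rfl (ht u v huv).symm]
    exact h6 _ _ _ (hadj _ _ _ _ _ huv)

end Pool.T9h45.HD
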