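import Pool.Agent.T9h45.HD.Num

/-!
# Sets with fewer colours than elements
-/

set_option autoImplicit false

namespace Pool.T9h45.HD

open Finset

variable {V : Type} [DecidableEq V]

theorem step (C : V → ℕ) {K : ℕ} (hK : 1 ≤ K) {A : Finset V} (hA : #(A.image C) + K ≤ #A) :
    ∃ Q ⊆ A, (∀ u ∈ Q, ∀ v ∈ Q, C u = C v) ∧ 2 ≤ #Q ∧ #Q ≤ K + 1 ∧
      (#((A \ Q).image C) + 1 ≤ #(A.image C) ∨ #Q = K + 1) := by
  obtain ⟨u, hu, v, hv, huv, hC⟩ := Finset.exists_ne_map_eq_of_card_lt_of_maps_to
    (s := A) (t := A.image C) (f := C) (by omega) fun a ha => mem_image_of_mem C ha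
  have h2 : 2 ≤ #(A.filter fun w => C w = C u) := by
    have h3 : ({u, v} : Finset V) ⊆ A.filter fun w => C w = C u := by
      intro w hw
      rw [mem_insert, mem_singleton] at hw
      rw [mem_filter]
      rcases hw with rfl | rfl
      · exact ⟨hu, rfl⟩
      · exact ⟨hv, hC.symm⟩
    have h4 := card_le_card h3
    rwa [card_pair huv] at h4
  by_cases h : #(A.filter fun w => C w = C u) ≤ K + 1
  · refine ⟨A.filter fun w => C w = C u, filter_subset _ _, ?_, h2, h, Or.inl ?_⟩
    · intro a ha b hb
      rw [(mem_filter.1 ha).2, (mem_filter.1 hb).2]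
    · have h3 : (A \ A.filter fun w => C w = C u).image C ⊆ (A.image C).erase (C u) := by
        intro c hc
        obtain ⟨w, hw, rfl⟩ := mem_image.1 hc
        rw [mem_sdiff, mem_filter] at hw
        exact mem_erase.2 ⟨fun h => hw.2 ⟨hw.1, h⟩, mem_image_of_mem C hw.1⟩
      have h4 := card_le_card h3
      rw [card_erase_of_mem (mem_image_of_mem C hu)] at h4
      have h5 : 0 < #(A.image C) := card_pos.2 ⟨_, mem_image_of_mem C hu⟩
      omega
  · obtain ⟨Q, hQ, hQc⟩ := exists_subset_card_eq (s := A.filter fun w => C w = C u)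
      (n := K + 1) (by omega)
    refine ⟨Q, hQ.trans (filter_subset _ _), ?_, by omega, by omega, Or.inr hQc⟩
    intro a ha b hb
    rw [(mem_filter.1 (hQ ha)).2, (mem_filter.1 (hQ hb)).2]

/-- an enumeration of a set by positions -/
theorem positions (A : Finset V) : ∃ pos : V → ℕ, (∀ v ∈ A, pos v < #A) ∧
    ∀ u ∈ A, ∀ v ∈ A, pos u = pos v → u = v := by
  refine ⟨fun v => if h : v ∈ A then (A.equivFin ⟨v, h⟩ : ℕ) else 0, ?_, ?_⟩
  · intro v hv
    simp only [dif_pos hv]
    exact (A.equivFin ⟨v, hv⟩).isLt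
  · intro u hu v hv h
    simp only [dif_pos hu, dif_pos hv] at h
    have := A.equivFin.injective (Fin.ext h)
    exact congrArg Subtype.val this

/-- positions and labels, the large classes first -/
theorem enum (C : V → ℕ) : ∀ (n K : ℕ) (A : Finset V), #A = n → #(A.image C) + K ≤ #A →
    ∃ pos f : V → ℕ, (∀ v ∈ A, pos v < #A) ∧ (∀ u ∈ A, ∀ v ∈ A, pos u = pos v → u = v) ∧
      (∀ v ∈ A, f v ≤ fh K (pos v)) ∧ ∀ u ∈ A, ∀ v ∈ A, f u = f v → C u = C v := by
  intro n
  induction n using Nat.strong_induction_on with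
  | _ n ih =>
    intro K A hAn hA
    rcases Nat.eq_zero_or_pos K with rfl | hK
    · obtain ⟨pos, h1, h2⟩ := positions A
      refine ⟨pos, pos, h1, h2, fun v _ => by rw [fh_zero], fun u hu v hv h => ?_⟩
      rw [h2 u hu v hv h]
    · obtain ⟨Q, hQA, hQC, hQ2, hQK, hQ⟩ := step C hK hA
      have hc : #(A \ Q) = #A - #Q := card_sdiff_of_subset hQA
      have hle := card_le_card hQA
      have hi : #((A \ Q).image C) ≤ #(A \ Q) := card_image_le
      obtain ⟨pos', f', h1, h2, h3, h4⟩ := ih #(A \ Q) (by omega) (K + 1 - #Q) (A \ Q) rfl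
        (by omega)
      obtain ⟨posQ, g1, g2⟩ := positions Q
      refine ⟨fun v => if v ∈ Q then posQ v else #Q + pos' v, fun v => if v ∈ Q then 0 else 1 + f' v,
        ?_, ?_, ?_, ?_⟩
      · intro v hv
        by_cases hvQ : v ∈ Q
        · have := g1 v hvQ
          simp only [if_pos hvQ]
          omega
        · have := h1 v (mem_sdiff.2 ⟨hv, hvQ⟩)
          simp only [if_neg hvQ]
          omega
      · intro u hu v hv h
        by_cases huQ : u ∈ Q <;> by_cases hvQ : v ∈ Q
        · simp only [if_pos huQ, if_pos hvQ] at h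
          exact g2 u huQ v hvQ h
        · simp only [if_pos huQ, if_neg hvQ] at h
          have := g1 u huQ
          omega
        · simp only [if_neg huQ, if_pos hvQ] at h
          have := g1 v hvQ
          omega
        · simp only [if_neg huQ, if_neg hvQ] at h
          exact h2 u (mem_sdiff.2 ⟨hu, huQ⟩) v (mem_sdiff.2 ⟨hv, hvQ⟩) (by omega)
      · intro v hv
        by_cases hvQ : v ∈ Q
        · simp only [if_pos hvQ]
          exact Nat.zero_le _
        · simp only [if_neg hvQ]
          have h5 := h3 v (mem_sdiff.2 ⟨hv, hvQ⟩)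
          have h6 := fh_step (K := K) (K' := K + 1 - #Q) (q := #Q) (j := pos' v) hQ2 (by omega)
          omega
      · intro u hu v hv h
        by_cases huQ : u ∈ Q <;> by_cases hvQ : v ∈ Q
        · exact hQC u huQ v hvQ
        · simp only [if_pos huQ, if_neg hvQ] at h
          omega
        · simp only [if_neg huQ, if_pos hvQ] at h
          omega
        · simp only [if_neg huQ, if_neg hvQ] at h
          exact h4 u (mem_sdiff.2 ⟨hu, huQ⟩) v (mem_sdiff.2 ⟨hv, hvQ⟩) (by omega)

/-- a small subset with `K` fewer colours than elements, such that the rest loses little -/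
theorem small (C : V → ℕ) : ∀ (n K : ℕ) (A : Finset V), #A = n → #(A.image C) + K ≤ #A →
    ∃ T ⊆ A, #T ≤ 2 * K ∧ #(T.image C) + K ≤ #T ∧
      #T + #((A \ T).image C) ≤ #(A.image C) + K + 1 := by
  intro n
  induction n using Nat.strong_induction_on with
  | _ n ih =>
    intro K A hAn hA
    rcases Nat.eq_zero_or_pos K with rfl | hK
    · exact ⟨∅, empty_subset _, by simp, by simp, by simp⟩
    · obtain ⟨Q, hQA, hQC, hQ2, hQK, hQ⟩ := step C hK hA
      have hc : #(A \ Q) = #A - #Q := card_sdiff_of_subset hQA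
      have hle := card_le_card hQA
      have hi : #((A \ Q).image C) ≤ #(A \ Q) := card_image_le
      have hi2 : #((A \ Q).image C) ≤ #(A.image C) := card_le_card (image_subset_image sdiff_subset)
      have hQ1 : #(Q.image C) ≤ 1 := by
        rw [card_le_one]
        intro a ha b hb
        obtain ⟨u, hu, rfl⟩ := mem_image.1 ha
        obtain ⟨v, hv, rfl⟩ := mem_image.1 hb
        exact hQC u hu v hv
      by_cases hQc : #Q = K + 1
      · exact ⟨Q, hQA, by omega, by omega, by omega⟩
      · obtain ⟨T, hT, h1, h2, h3⟩ := ih #(A \ Q) (by omega) (K + 1 - #Q) (A \ Q) rfl (by omega)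
        have hd : Disjoint Q T := by
          rw [disjoint_left]
          intro a ha hb
          exact (mem_sdiff.1 (hT hb)).2 ha
        have h4 : #(Q ∪ T) = #Q + #T := card_union_of_disjoint hd
        have h5 : #((Q ∪ T).image C) ≤ #(Q.image C) + #(T.image C) := by
          rw [image_union]
          exact card_union_le _ _
        have h6 : A \ (Q ∪ T) = (A \ Q) \ T := by
          rw [sdiff_sdiff_left, sup_eq_union]
        refine ⟨Q ∪ T, union_subset hQA (hT.trans sdiff_subset), by omega, by omega, ?_⟩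
        rw [h6]
        omega

theorem mono (C : V → ℕ) {K : ℕ} {T A : Finset V} (hT : T ⊆ A) (h : #(T.image C) + K ≤ #T) :
    #(A.image C) + K ≤ #A := by
  have h1 : #(A \ T) = #A - #T := card_sdiff_of_subset hT
  have h2 := card_le_card hT
  have h3 : #(A.image C) ≤ #(T.image C) + #((A \ T).image C) := by
    rw [← union_sdiff_of_subset hT, image_union]
    refine (card_union_le _ _).trans ?_
    rw [union_sdiff_of_subset hT]
  have h4 : #((A \ T).image C) ≤ #(A \ T) := card_image_le
  omega

/-- a partition into two parts with `K` fewer colours than elements -/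
theorem halves [Fintype V] (C : V → ℕ) {K m m' : ℕ} (hm : 2 * K ≤ m) (hm' : 2 * K ≤ m')
    (hn : m + m' = Fintype.card V)
    (h : #((univ : Finset V).image C) + (2 * K + 1) ≤ Fintype.card V) :
    ∃ L : Finset V, #L = m ∧ #(univ \ L) = m' ∧ #(L.image C) + K ≤ #L ∧
      #((univ \ L).image C) + K ≤ #(univ \ L) := by
  rw [← card_univ] at hn h
  obtain ⟨T, hT, h1, h2, h3⟩ := small C _ K univ rfl (by omega)
  have hc : #(univ \ T) = #(univ : Finset V) - #T := card_sdiff_of_subset hT
  obtain ⟨U, hU, g1, g2, -⟩ := small C _ K (univ \ T) rfl (by omega)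
  have hcU : #(univ \ U) = #(univ : Finset V) - #U := card_sdiff_of_subset (subset_univ _)
  have hTU : T ⊆ univ \ U := by
    intro a ha
    rw [mem_sdiff]
    exact ⟨mem_univ _, fun hb => (mem_sdiff.1 (hU hb)).2 ha⟩
  obtain ⟨L, hL1, hL2, hL3⟩ := exists_subsuperset_card_eq hTU (n := m) (by omega) (by omega)
  have hUL : U ⊆ univ \ L := by
    intro a ha
    rw [mem_sdiff]
    exact ⟨mem_univ _, fun hb => (mem_sdiff.1 (hL2 hb)).2 ha⟩
  have hcL : #(univ \ L) = #(univ : Finset V) - #L := card_sdiff_of_subset (subset_univ _)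
  exact ⟨L, hL3, by omega, mono C hL1 h2, mono C hUL g2⟩

end Pool.T9h45.HD
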